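import Mathlib
import Pool.Agent.X195.GI4

/-!
# Every gap between the mapping index and the cross-index is realised

Positive answer to Q1 of MP_28f43d_co, for every nontrivial finite group `G` and all `1 ≤ m < n`.
Construction: a finite poset `X` built recursively (disjoint copies of the previous stage, and new
maximal elements above two elements of different copies, twisted by a fixed `s ≠ 1`).  A pigeonhole
argument forces one more level at each stage, while the twist is recorded by integers, which gives
a continuous `G`-map to `E_1 G`.  The answer is the disjoint union of `X` and `Q_m G`.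
-/

set_option autoImplicit false

namespace Pool.Agent.Results.MP_28f43d_co.AllGapsRealised

open Pool.Agent.X195.GI

/-- For every nontrivial finite group `G` and all positive integers `m < n` there is a finite free
`G`-poset `P` with `ind Δ(P) = m` and `Xind P = n`. -/
theorem result (G : Type) [Group G] [Fintype G] [Nontrivial G] (m n : ℕ) (hm : 1 ≤ m)
    (hmn : m < n) :
    ∃ P : GPoset G, P.IsFree ∧
      IsLeast {k : ℕ | P.Delta.HasTopMap (Q G k).Delta} m ∧
      IsLeast {k : ℕ | P.HasMap (Q G k)} n := by
  obtain ⟨P, h1, h2, h3, h4, h5⟩ := main_posets G m n hm hmn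
  refine ⟨P, h1, ⟨h2, fun k hk => ?_⟩, ⟨h4, fun k hk => ?_⟩⟩
  · by_contra hlt
    exact h3 k (not_le.mp hlt) hk
  · by_contra hlt
    exact h5 k (not_le.mp hlt) (GPoset.HasMap.simpMap hk)

end Pool.Agent.Results.MP_28f43d_co.AllGapsRealised
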